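import Pool.Agent.Y198.DC.Stm

universe u

open CategoryTheory IsLocalRing TensorProduct Pointwise

namespace Pool.Agent.Y198.DC

open H503R3.CC

/-- Ext in the first variable along a linear equivalence. -/
noncomputable def extEquiv {R : Type u} [CommRing R] {M M' N : Type u} [AddCommGroup M]
    [Module R M] [AddCommGroup M'] [Module R M'] [AddCommGroup N] [Module R N]
    (e : M ≃ₗ[R] M') (t : ℕ) :
    Abelian.Ext (ModuleCat.of R M') (ModuleCat.of R N) t ≃ₗ[R]
      Abelian.Ext (ModuleCat.of R M) (ModuleCat.of R N) t where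
  toFun a := (Abelian.Ext.mk₀ e.toModuleIso.hom).comp a (zero_add t)
  invFun a := (Abelian.Ext.mk₀ e.toModuleIso.inv).comp a (zero_add t)
  map_add' a b := by simp
  map_smul' r a := by simp
  left_inv a := by
    beta_reduce
    rw [Abelian.Ext.mk₀_comp_mk₀_assoc, Iso.inv_hom_id, Abelian.Ext.mk₀_id_comp]
  right_inv a := by
    beta_reduce
    rw [Abelian.Ext.mk₀_comp_mk₀_assoc, Iso.hom_inv_id, Abelian.Ext.mk₀_id_comp]

variable {R : Type u} [CommRing R] [IsLocalRing R] {n : ℕ} {x : ℕ → R} {w : R}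

theorem reg_quot (h : Data R n x w) {i : ℕ} (hi : i < n) :
    IsSMulRegular (R ⧸ P x w i) (x (i + 1)) := by
  have hprime := h.prime i (by omega)
  rw [isSMulRegular_iff_right_eq_zero_of_smul]
  intro r hr
  obtain ⟨r, rfl⟩ := Ideal.Quotient.mk_surjective r
  change Ideal.Quotient.mk _ (x (i + 1) * r) = 0 at hr
  rw [Ideal.Quotient.eq_zero_iff_mem] at hr ⊢
  exact (hprime.mem_or_mem hr).resolve_left (h.notMem i hi)

/-- `(R / P_i) / x_(i+1) ≅ R / P_(i+1)`. -/
noncomputable def quotSucc (x : ℕ → R) (w : R) (i : ℕ) :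
    QuotSMulTop (x (i + 1)) (R ⧸ P x w i) ≃ₗ[R] R ⧸ P x w (i + 1) :=
  (quotEquiv (P x w i) (x (i + 1))).trans
    (Submodule.quotEquivOfEq _ _ (P_succ x w i).symm)

theorem pd_top [IsNoetherianRing R] [IsDomain R] (h : Data R n x w) (i : ℕ) (hi : i ≤ n) :
    projectiveDimension (ModuleCat.of R (R ⧸ P x w i)) = ⊤ := by
  induction i with
  | zero =>
    rw [P_zero]
    exact h.pinch.projectiveDimension_quotient (h.mem_max le_rfl)
  | succ i ih =>
    have hreg : IsSMulRegular (ModuleCat.of R (R ⧸ P x w i)) (x (i + 1)) :=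
      reg_quot h (by omega)
    have h1 := ModuleCat.projectiveDimension_quotSMulTop_eq_succ_of_isSMulRegular
      (ModuleCat.of R (R ⧸ P x w i)) (x (i + 1)) hreg (h.mem_max (by omega))
    rw [ih (by omega)] at h1
    have h2 := projectiveDimension_eq_of_iso (quotSucc x w i).toModuleIso
    rw [← h2]
    exact h1.trans rfl

theorem ext_main [IsNoetherianRing R] [IsDomain R] (hB : S_BASE.{u}) (hV : S_VAN.{u})
    (hS : S_STEP.{u}) (hU : S_UP.{u}) (h : Data R n x w) (i : ℕ) (hi : i ≤ n) :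
    (∀ j : ℕ, i + 2 ≤ j → Subsingleton (Abelian.Ext (ModuleCat.of R (R ⧸ P x w i))
      (ModuleCat.of R R) j)) ∧
    Nonempty (Abelian.Ext (ModuleCat.of R (R ⧸ P x w i)) (ModuleCat.of R R) (i + 1) ≃ₗ[R]
      (R ⧸ P x w i)) := by
  induction i with
  | zero =>
    refine ⟨?_, hB R n x w h⟩
    intro j hj
    obtain ⟨k, rfl⟩ := Nat.exists_eq_add_of_le' hj
    exact hV R n x w h k
  | succ i ih =>
    obtain ⟨h1, ⟨e⟩⟩ := ih (by omega)
    have hreg := reg_quot h (i := i) (by omega)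
    constructor
    · intro j hj
      obtain ⟨k, rfl⟩ : ∃ k, j = k + 1 := ⟨j - 1, by omega⟩
      have h2 := hU R (R ⧸ P x w i) R (x (i + 1)) k hreg (h1 k (by omega)) (h1 (k + 1) (by omega))
      exact (extEquiv (N := R) (quotSucc x w i) (k + 1)).toEquiv.subsingleton
    · obtain ⟨e2⟩ := hS R (R ⧸ P x w i) R (x (i + 1)) (i + 1) hreg (h1 (i + 1 + 1) (by omega))
      have e3 : QuotSMulTop (x (i + 1)) (Abelian.Ext (ModuleCat.of R (R ⧸ P x w i))
          (ModuleCat.of R R) (i + 1)) ≃ₗ[R] QuotSMulTop (x (i + 1)) (R ⧸ P x w i) :=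
        QuotSMulTop.congr (x (i + 1)) e
      exact ⟨(((extEquiv (N := R) (quotSucc x w i) (i + 1 + 1)).trans e2).trans e3).trans
        (quotSucc x w i)⟩

omit [IsLocalRing R] in
theorem kill (i : ℕ) (r : R) (hr : r ∈ P x w i) (e : R ⧸ P x w i) : r • e = 0 := by
  obtain ⟨e, rfl⟩ := Ideal.Quotient.mk_surjective e
  change Ideal.Quotient.mk _ (r * e) = 0
  rw [Ideal.Quotient.eq_zero_iff_mem]
  exact Ideal.mul_mem_right _ _ hr

/-- `(R / P) ⊗ N ≅ N` if `N ≅ R / P`. -/
noncomputable def tensorEquiv (i : ℕ) {N : Type u} [AddCommGroup N] [Module R N]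
    (e : N ≃ₗ[R] (R ⧸ P x w i)) : (R ⧸ P x w i) ⊗[R] N ≃ₗ[R] (R ⧸ P x w i) :=
  ((TensorProduct.quotTensorEquivQuotSMul N (P x w i)).trans
    (Submodule.quotEquivOfEqBot _ (by
      rw [eq_bot_iff, Submodule.smul_le]
      intro r hr a _
      apply (Submodule.mem_bot R).mpr
      apply e.injective
      rw [map_smul, map_zero]
      exact kill i r hr _))).trans e

theorem cm_of_equiv [IsNoetherianRing R] [IsDomain R] (hC : S_CM.{u}) (hQ : S_SEQ.{u})
    (h : Data R n x w) (i : ℕ) (hi : i ≤ n) {N : Type u} [AddCommGroup N] [Module R N]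
    (e : N ≃ₗ[R] (R ⧸ P x w i)) : IsCMOfCodim R N (i + 1) := by
  have hp := h.prime i hi
  have : Nontrivial (R ⧸ P x w i) := Ideal.Quotient.nontrivial_iff.mpr hp.ne_top
  have : Nontrivial N := e.toEquiv.nontrivial
  have : Module.Finite R N := Module.Finite.equiv e.symm
  refine hC R n x w h i hi N ?_ ?_
  · intro r hr a
    apply e.injective
    rw [map_smul, map_zero]
    exact kill i r hr _
  · exact (LinearEquiv.isWeaklyRegular_congr e _).mpr (hQ R n x w h i hi)

theorem fails [IsNoetherianRing R] [IsDomain R] (hB : S_BASE.{u}) (hV : S_VAN.{u})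
    (hS : S_STEP.{u}) (hU : S_UP.{u}) (hC : S_CM.{u}) (hQ : S_SEQ.{u}) (h : Data R n x w)
    (i : ℕ) (hi : i ≤ n) :
    IsCMOfCodim R (R ⧸ P x w i) (i + 1) ∧
    IsCMOfCodim R ((R ⧸ P x w i) ⊗[R]
      Abelian.Ext (ModuleCat.of R (R ⧸ P x w i)) (ModuleCat.of R R) (i + 1)) (i + 1) ∧
    projectiveDimension (ModuleCat.of R (R ⧸ P x w i)) = ⊤ := by
  obtain ⟨-, ⟨e⟩⟩ := ext_main hB hV hS hU h i hi
  exact ⟨cm_of_equiv hC hQ h i hi (LinearEquiv.refl R _),
    cm_of_equiv hC hQ h i hi (tensorEquiv i e), pd_top h i hi⟩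

/-- `(C_c)` holds vacuously when `c - 1` is larger than the dimension. -/
theorem vacuous [IsNoetherianRing R] (d : ℕ) (hd : (maximalIdeal R).height ≤ d) (c : ℕ)
    (hc : d + 2 ≤ c) : ConditionC c R := by
  intro M _ _ _ hM _
  exfalso
  have := hM.nontrivial
  have h1 := hM.codim_eq
  have h2 : codim R M ≤ (maximalIdeal R).height := by
    obtain ⟨p, hp⟩ := Module.nonempty_support_of_nontrivial (R := R) (M := M)
    refine iInf_le_of_le ⟨p, hp⟩ ?_
    exact Ideal.height_mono (IsLocalRing.le_maximalIdeal p.2.ne_top)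
  rw [h1] at h2
  have h3 : ((c - 1 : ℕ) : ℕ∞) ≤ (d : ℕ∞) := h2.trans hd
  have h4 : c - 1 ≤ d := by exact_mod_cast h3
  omega

end Pool.Agent.Y198.DC
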