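import Pool.Agent.Y198.DC.Stm2

universe u

open CategoryTheory IsLocalRing TensorProduct Pointwise

namespace Pool.Agent.Y198.DC

open H503R3.CC

/-- A hypersurface of dimension `d` fails `(C_(d+1))`. -/
theorem two_aux (hMF : S_MF.{u}) (hMA : S_MATR.{u}) (hPD : S_PD.{u}) (hMCM : S_MCM.{u})
    (hRS : S_RS.{u}) (hQD : S_QD.{u}) (hQ : S_QUOT.{u}) (hF : S_FIN.{u})
    (R : Type u) [CommRing R] [IsLocalRing R] (hR : IsLocalHypersurfaceDomain R) (d : ℕ)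
    (hd : ringKrullDim R = (d : WithBot ℕ∞)) : IsNoetherianRing R ∧ ¬ ConditionC (d + 1) R := by
  obtain ⟨-, -, S, _, hS, f, hf2, hf0, ⟨e⟩⟩ := hR
  have hN : IsNoetherianRing R := isNoetherianRing_of_ringEquiv _ e.symm
  refine ⟨hN, ?_⟩
  have hfm : f ∈ maximalIdeal S := Ideal.pow_le_self two_ne_zero hf2
  obtain ⟨rs, hlen, hrs, hreg⟩ := hRS S
  have hdim : ringKrullDim S = ringKrullDim R + 1 := by
    rw [ringKrullDim_eq_of_ringEquiv e]
    exact (ringKrullDim_quotient_span_singleton_succ_eq_ringKrullDim_of_mem_nonZeroDivisors hf0 hfm).symm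
  have hlen' : rs.length = d + 1 := by
    rw [hdim, hd] at hlen
    exact_mod_cast hlen
  obtain ⟨ys, hyl, hym, hyr⟩ := hQD R S f hfm hf0 e d rs hlen' hrs hreg
  obtain ⟨ι, _, _, _, A, B, hA, hB, hAB, hBA⟩ := hMF S (maximalIdeal S) f hf2
  obtain ⟨a, b, ha, hb, ha0, hb0, hab, hba⟩ := hMA R S f hf0 e ι A B hA hB hAB hBA
  have hpd := hPD R ι a b ha hb ha0 hb0 hab hba
  obtain ⟨zs, hzl, hzm, hzr⟩ := hMCM R ι a b ha0 hb0 hab hba ys hym hyr
  obtain ⟨M, _, _, _, _, hMs, hMp⟩ := hQ R d hd (LinearMap.range a.mulVecLin) hpd zs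
    (hzl.trans hyl) hzm hzr
  obtain ⟨h1, h2⟩ := hF R d hd ys hyl hym hyr M hMs
  intro hC
  have h3 := hC M h1 h2
  rw [hMp] at h3
  exact lt_irrefl _ h3

end Pool.Agent.Y198.DC
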