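import Pool.Agent.Y198.DC.One
import Pool.Agent.Y198.DC.Two
import Pool.Agent.Y604.DC.MF
import Pool.Agent.Y239.DC.MATR
import Pool.Agent.Y888.DC.PD
import Pool.Agent.Y383.DC.MCM
import Pool.Agent.Y306.DC.RS
import Pool.Agent.Y697.DC.QD
import Pool.Agent.Y232.DC.QUOT
import Pool.Agent.Y484.DC.FIN

universe u

open CategoryTheory IsLocalRing TensorProduct Pointwise

namespace Pool.Agent.Y198.DC

open H503R3.CC

/-- Every local hypersurface domain of dimension `d` fails `(C_(d+1))` and satisfies `(C_c)`,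
vacuously, for `c ≥ d + 2`. -/
theorem every (R : Type u) [CommRing R] [IsLocalRing R] (hR : IsLocalHypersurfaceDomain R)
    (d : ℕ) (hd : ringKrullDim R = (d : WithBot ℕ∞)) :
    ¬ ConditionC (d + 1) R ∧ ∀ c, d + 2 ≤ c → ConditionC c R := by
  obtain ⟨hN, h⟩ := two_aux Y604.DC.MF.t Y239.DC.MATR.t Y888.DC.t Y383.DC.t Y306.DC.t Y697.DC.t
    Y232.DC.t Y484.DC.t R hR d hd
  refine ⟨h, fun c hc => vacuous d ?_ c hc⟩
  have h1 := IsLocalRing.maximalIdeal_height_eq_ringKrullDim (R := R)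
  rw [hd] at h1
  have h2 : (maximalIdeal R).height = (d : ℕ∞) := by exact_mod_cast h1
  exact h2.le

end Pool.Agent.Y198.DC
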