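import Pool.Agent.Y198.DC.Base
import Pool.Agent.Y115.DC.BASE
import Pool.Agent.Y109.DC.VAN
import Pool.Agent.Y151.DC.STEP
import Pool.Agent.Y404.DC.CM
import Pool.Agent.Y604.DC.SEQREG
import Pool.Agent.H503R3.CC.Hyp

universe u

open CategoryTheory IsLocalRing TensorProduct Pointwise

namespace Pool.Agent.Y198.DC

open H503R3.CC

/-- In every dimension `d ≥ 2` one hypersurface domain fails `(C_2), …, (C_(d+1))` at once. -/
theorem one (K : Type u) [Field K] (d : ℕ) (hd : 2 ≤ d) :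
    ∃ (R : Type u) (_ : CommRing R) (_ : IsLocalRing R) (_ : Algebra K R),
      IsLocalHypersurfaceDomain R ∧ ringKrullDim R = d ∧
      (∀ c, 2 ≤ c → (ConditionC c R ↔ d + 2 ≤ c)) ∧
      ∃ 𝔭 : ℕ → Ideal R, 𝔭 d = maximalIdeal R ∧ (∀ t, 1 ≤ t → t < d → 𝔭 t < 𝔭 (t + 1)) ∧
        ∀ t, 1 ≤ t → t ≤ d → (𝔭 t).IsPrime ∧
          IsCMOfCodim R (R ⧸ 𝔭 t) t ∧
          IsCMOfCodim R ((R ⧸ 𝔭 t) ⊗[R]
            Abelian.Ext (ModuleCat.of R (R ⧸ 𝔭 t)) (ModuleCat.of R R) t) t ∧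
          projectiveDimension (ModuleCat.of R (R ⧸ 𝔭 t)) = ⊤ ∧
          (t < d → ∀ [(𝔭 t).IsPrime], IsRegularLocalRing (Localization.AtPrime (𝔭 t))) := by
  obtain ⟨n, rfl⟩ : ∃ n, d = n + 1 := ⟨d - 1, by omega⟩
  have hn : 0 < n := by omega
  have hdom := RL_isDomain K n hn
  have hnoeth : IsNoetherianRing (RL K n) :=
    IsLocalization.isNoetherianRing (m0 K n).primeCompl (RL K n) inferInstance
  have hd := data K n hn
  have key : ∀ i ≤ n, _ := fun i hi => fails Y115.DC.t Y109.DC.VAN.t Y151.DC.t Y151.DC.t2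
    Y404.DC.CM.t Y604.DC.t hd i hi
  refine ⟨RL K n, inferInstance, inferInstance, inferInstance, RL_hypersurface K n hn, hd.dim,
    ?_, fun t => P (x1 K n) (w1 K n) (t - 1), hd.max, ?_, ?_⟩
  · intro c hc
    constructor
    · intro hC
      by_contra hcon
      obtain ⟨i, rfl⟩ : ∃ i, c = i + 2 := ⟨c - 2, by omega⟩
      obtain ⟨h1, h2, h3⟩ := key i (by omega)
      have h4 := hC _ h1 h2
      rw [h3] at h4
      exact lt_irrefl _ h4
    · intro hcd
      exact vacuous (n + 1) hd.height_max.le c hcd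
  · intro t h1 h2
    obtain ⟨i, rfl⟩ : ∃ i, t = i + 1 := ⟨t - 1, by omega⟩
    exact hd.P_lt (by omega)
  · intro t h1 h2
    obtain ⟨i, rfl⟩ : ∃ i, t = i + 1 := ⟨t - 1, by omega⟩
    obtain ⟨h3, h4, h5⟩ := key i (by omega)
    refine ⟨hd.prime i (by omega), h3, h4, h5, ?_⟩
    intro h6 h7
    have h8 : (P (x1 K n) (w1 K n) i).IsPrime := h7
    exact Y604.DC.t2 _ n _ _ hd i (by omega)

end Pool.Agent.Y198.DC
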