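import Pool.Agent.H503R3.CC.PdPart

universe u

open CategoryTheory IsLocalRing TensorProduct Pointwise

namespace Pool.Agent.Y198.DC

open H503R3.CC

/-- DC-BASE: `Ext^1(R / P_0, R)` is isomorphic to `R / P_0`, where `P_0 = (x_0, w)`. -/
def S_BASE : Prop :=
  ∀ (R : Type u) [CommRing R] [IsLocalRing R] [IsNoetherianRing R] [IsDomain R]
    (n : ℕ) (x : ℕ → R) (w : R), Data R n x w →
    Nonempty (Abelian.Ext (ModuleCat.of R (R ⧸ P x w 0)) (ModuleCat.of R R) 1 ≃ₗ[R]
      (R ⧸ P x w 0))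

/-- DC-VAN: `Ext^j(R / P_0, R) = 0` for all `j ≥ 2`. -/
def S_VAN : Prop :=
  ∀ (R : Type u) [CommRing R] [IsLocalRing R] [IsNoetherianRing R] [IsDomain R]
    (n : ℕ) (x : ℕ → R) (w : R), Data R n x w → ∀ j : ℕ,
    Subsingleton (Abelian.Ext (ModuleCat.of R (R ⧸ P x w 0)) (ModuleCat.of R R) (j + 2))

/-- DC-STEP: if `r` is regular on `M`, `Ext^t(M / r M, N) = 0` and `Ext^(t+1)(M, N) = 0` then
`Ext^(t+1)(M / r M, N) ≅ Ext^t(M, N) / r Ext^t(M, N)`. -/
def S_STEP : Prop :=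
  ∀ (R : Type u) [CommRing R] (M N : Type u) [AddCommGroup M] [Module R M] [AddCommGroup N]
    [Module R N] (r : R) (t : ℕ), IsSMulRegular M r →
    Subsingleton (Abelian.Ext (ModuleCat.of R M) (ModuleCat.of R N) (t + 1)) →
    Nonempty (Abelian.Ext (ModuleCat.of R (QuotSMulTop r M)) (ModuleCat.of R N) (t + 1) ≃ₗ[R]
      QuotSMulTop r (Abelian.Ext (ModuleCat.of R M) (ModuleCat.of R N) t))

/-- DC-UP: if `r` is regular on `M` and `Ext^t(M, N) = 0 = Ext^(t+1)(M, N)` then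
`Ext^(t+1)(M / r M, N) = 0`. -/
def S_UP : Prop :=
  ∀ (R : Type u) [CommRing R] (M N : Type u) [AddCommGroup M] [Module R M] [AddCommGroup N]
    [Module R N] (r : R) (t : ℕ), IsSMulRegular M r →
    Subsingleton (Abelian.Ext (ModuleCat.of R M) (ModuleCat.of R N) t) →
    Subsingleton (Abelian.Ext (ModuleCat.of R M) (ModuleCat.of R N) (t + 1)) →
    Subsingleton (Abelian.Ext (ModuleCat.of R (QuotSMulTop r M)) (ModuleCat.of R N) (t + 1))

/-- DC-CM: a nonzero finitely generated module killed by `P_i` and on which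
`x_(i+1), …, x_n` is a regular sequence is Cohen-Macaulay of codimension `i + 1`. -/
def S_CM : Prop :=
  ∀ (R : Type u) [CommRing R] [IsLocalRing R] [IsNoetherianRing R] [IsDomain R]
    (n : ℕ) (x : ℕ → R) (w : R), Data R n x w → ∀ i : ℕ, i ≤ n →
    ∀ (N : Type u) [AddCommGroup N] [Module R N] [Module.Finite R N] [Nontrivial N],
      (∀ r ∈ P x w i, ∀ e : N, r • e = 0) →
      RingTheory.Sequence.IsWeaklyRegular N ((List.range' (i + 1) (n - i)).map x) →
      IsCMOfCodim R N (i + 1)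

/-- DC-SEQ: `x_(i+1), …, x_n` is a regular sequence on `R / P_i`. -/
def S_SEQ : Prop :=
  ∀ (R : Type u) [CommRing R] [IsLocalRing R] [IsNoetherianRing R] [IsDomain R]
    (n : ℕ) (x : ℕ → R) (w : R), Data R n x w → ∀ i : ℕ, i ≤ n →
      RingTheory.Sequence.IsWeaklyRegular (R ⧸ P x w i) ((List.range' (i + 1) (n - i)).map x)

/-- DC-REG: `R` is regular at `P_i` for `i < n`. -/
def S_REG : Prop :=
  ∀ (R : Type u) [CommRing R] [IsLocalRing R] [IsNoetherianRing R] [IsDomain R]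
    (n : ℕ) (x : ℕ → R) (w : R), Data R n x w → ∀ i : ℕ, i < n → ∀ [(P x w i).IsPrime],
      IsRegularLocalRing (Localization.AtPrime (P x w i))

end Pool.Agent.Y198.DC
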