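import Pool.Agent.Y198.DC.Stm

universe u

open CategoryTheory IsLocalRing TensorProduct Pointwise

namespace Pool.Agent.Y198.DC

open H503R3.CC

/-- DD-MF: matrix factorizations. -/
def S_MF : Prop :=
  ∀ (S : Type u) [CommRing S] (I : Ideal S) (f : S), f ∈ I ^ 2 →
    ∃ (ι : Type) (_ : Fintype ι) (_ : DecidableEq ι) (_ : Nonempty ι) (A B : Matrix ι ι S),
      (∀ i j, A i j ∈ I) ∧ (∀ i j, B i j ∈ I) ∧ A * B = f • (1 : Matrix ι ι S) ∧
        B * A = f • (1 : Matrix ι ι S)

/-- DD-MATR: the exact periodic pair of matrices over the hypersurface ring. -/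
def S_MATR : Prop :=
  ∀ (R S : Type u) [CommRing R] [IsLocalRing R] [CommRing S] [IsLocalRing S]
    (f : S), f ∈ nonZeroDivisors S → (R ≃+* S ⧸ Ideal.span {f}) →
    ∀ (ι : Type) [Fintype ι] [DecidableEq ι] [Nonempty ι] (A B : Matrix ι ι S),
      (∀ i j, A i j ∈ maximalIdeal S) → (∀ i j, B i j ∈ maximalIdeal S) →
      A * B = f • (1 : Matrix ι ι S) → B * A = f • (1 : Matrix ι ι S) →
    ∃ a b : Matrix ι ι R, (∀ i j, a i j ∈ maximalIdeal R) ∧ (∀ i j, b i j ∈ maximalIdeal R) ∧
      a ≠ 0 ∧ b ≠ 0 ∧ LinearMap.ker a.mulVecLin = LinearMap.range b.mulVecLin ∧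
      LinearMap.ker b.mulVecLin = LinearMap.range a.mulVecLin

/-- DD-PD: the range of `a` has infinite projective dimension. -/
def S_PD : Prop :=
  ∀ (R : Type u) [CommRing R] [IsLocalRing R] [IsNoetherianRing R]
    (ι : Type) [Fintype ι] [DecidableEq ι] (a b : Matrix ι ι R),
    (∀ i j, a i j ∈ maximalIdeal R) → (∀ i j, b i j ∈ maximalIdeal R) →
      a ≠ 0 → b ≠ 0 → LinearMap.ker a.mulVecLin = LinearMap.range b.mulVecLin →
      LinearMap.ker b.mulVecLin = LinearMap.range a.mulVecLin →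
      projectiveDimension (ModuleCat.of R (LinearMap.range a.mulVecLin)) = ⊤

/-- DD-MCM: the range of `a` has depth at least `d` when `R` has. -/
def S_MCM : Prop :=
  ∀ (R : Type u) [CommRing R] [IsLocalRing R] [IsNoetherianRing R]
    (ι : Type) [Fintype ι] [DecidableEq ι] (a b : Matrix ι ι R),
      a ≠ 0 → b ≠ 0 → LinearMap.ker a.mulVecLin = LinearMap.range b.mulVecLin →
      LinearMap.ker b.mulVecLin = LinearMap.range a.mulVecLin →
    ∀ ys : List R, (∀ r ∈ ys, r ∈ maximalIdeal R) → RingTheory.Sequence.IsRegular R ys →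
    ∃ zs : List R, zs.length = ys.length ∧ (∀ r ∈ zs, r ∈ maximalIdeal R) ∧
      RingTheory.Sequence.IsRegular (LinearMap.range a.mulVecLin) zs

/-- DD-RS: a regular local ring has a regular sequence of length its dimension. -/
def S_RS : Prop :=
  ∀ (S : Type u) [CommRing S] [IsRegularLocalRing S],
    ∃ rs : List S, ((rs.length : ℕ) : WithBot ℕ∞) = ringKrullDim S ∧
      (∀ r ∈ rs, r ∈ maximalIdeal S) ∧ RingTheory.Sequence.IsRegular S rs

/-- DD-QD: passage to the hypersurface. -/
def S_QD : Prop :=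
  ∀ (R S : Type u) [CommRing R] [IsLocalRing R] [CommRing S] [IsLocalRing S]
    [IsNoetherianRing S] (f : S), f ∈ maximalIdeal S → f ∈ nonZeroDivisors S →
    (R ≃+* S ⧸ Ideal.span {f}) → ∀ (d : ℕ) (rs : List S), rs.length = d + 1 →
      (∀ r ∈ rs, r ∈ maximalIdeal S) → RingTheory.Sequence.IsRegular S rs →
    ∃ ys : List R, ys.length = d ∧ (∀ r ∈ ys, r ∈ maximalIdeal R) ∧
      RingTheory.Sequence.IsRegular R ys

/-- DD-QUOT: from a module of infinite projective dimension and depth `d = dim R` to one of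
dimension `0`. -/
def S_QUOT : Prop :=
  ∀ (R : Type u) [CommRing R] [IsLocalRing R] [IsNoetherianRing R] (d : ℕ),
    ringKrullDim R = (d : WithBot ℕ∞) →
    ∀ (B : Type u) [AddCommGroup B] [Module R B] [Module.Finite R B],
      projectiveDimension (ModuleCat.of R B) = ⊤ → ∀ zs : List R, zs.length = d →
      (∀ r ∈ zs, r ∈ maximalIdeal R) → RingTheory.Sequence.IsRegular B zs →
    ∃ (M : Type u) (_ : AddCommGroup M) (_ : Module R M) (_ : Module.Finite R M)
      (_ : Nontrivial M), (∀ p ∈ Module.support R M, p.asIdeal = maximalIdeal R) ∧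
      projectiveDimension (ModuleCat.of R M) = ⊤

/-- DD-FIN: modules supported at the maximal ideal. -/
def S_FIN : Prop :=
  ∀ (R : Type u) [CommRing R] [IsLocalRing R] [IsNoetherianRing R] (d : ℕ),
    ringKrullDim R = (d : WithBot ℕ∞) →
    ∀ ys : List R, ys.length = d → (∀ r ∈ ys, r ∈ maximalIdeal R) →
      RingTheory.Sequence.IsRegular R ys →
    ∀ (M : Type u) [AddCommGroup M] [Module R M] [Module.Finite R M] [Nontrivial M],
      (∀ p ∈ Module.support R M, p.asIdeal = maximalIdeal R) →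
      IsCMOfCodim R M d ∧
      IsCMOfCodim R (M ⊗[R] Abelian.Ext (ModuleCat.of R M) (ModuleCat.of R R) d) d

end Pool.Agent.Y198.DC
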